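import Pool.Agent.W795.FloqRel

/-!
# MP_214325_an : factorisation of the multiplier curve does not force `L = R(H)`

`L = A ∘ D⁴ ∘ A⁻¹` with `A = D - φ`, `φ = y'/y`, `y = e^{κx} + e^{iκx}/2`, `κ = π(-1+i)/b`.
-/

namespace Pool.Agent.Results.MP_214325_an.Disproof

open Filter Topology Matrix Pool.Agent.W795.Floq

noncomputable section

/-- The differential expression `u^(n) + ∑_{k=0}^{n-2} p_k u^(k)`. -/
def opL (n : ℕ) (p : ℕ → ℝ → ℂ) (u : ℝ → ℂ) (x : ℝ) : ℂ :=
  iteratedDeriv n u x + ∑ k ∈ Finset.range (n - 1), p k x * iteratedDeriv k u x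

/-- The fundamental solutions: `u l j` solves `L u = l u` and its `k`-th derivative at `0` is
`1` for `k = j` and `0` otherwise (`0 ≤ j, k < n`). -/
def IsFundamental (n : ℕ) (p : ℕ → ℝ → ℂ) (u : ℂ → Fin n → ℝ → ℂ) : Prop :=
  ∀ l j, (ContDiff ℝ n (u l j) ∧ ∀ x, opL n p (u l j) x = l * u l j x) ∧
    ∀ k : Fin n, iteratedDeriv k (u l j) 0 = if k = j then 1 else 0

/-- `T l` is the Floquet matrix `(u_j^(k)(b; l))_{k,j}` for every `l`. -/
def IsFloquet (n : ℕ) (b : ℝ) (p : ℕ → ℝ → ℂ) (T : ℂ → Matrix (Fin n) (Fin n) ℂ) : Prop :=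
  ∃ u : ℂ → Fin n → ℝ → ℂ, IsFundamental n p u ∧
    ∀ l (k j : Fin n), T l k j = iteratedDeriv k (u l j) b

/-- The product `∏_j [r + 1/r - Δ(w_j)]` over the roots `w_j` of `R(w) - l`, with multiplicity. -/
def curveProduct (R : Polynomial ℂ) (Δ : ℂ → ℂ) (l r : ℂ) : ℂ :=
  (((R - Polynomial.C l).roots).map (fun w => r + r⁻¹ - Δ w)).prod

/-- The Hill expression `u'' + q u`. -/
def hill (q : ℝ → ℂ) (u : ℝ → ℂ) (x : ℝ) : ℂ := iteratedDeriv 2 u x + q x * u x

/-- `R(H) u = ∑_k c_k H^k u` for the Hill operator `H` with potential `q`. -/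
def polyHill (R : Polynomial ℂ) (q : ℝ → ℂ) (u : ℝ → ℂ) (x : ℝ) : ℂ :=
  ∑ k ∈ Finset.range (R.natDegree + 1), R.coeff k * ((hill q)^[k] u) x

/-! ### The function `y` -/

/-- the exponent -/
def kap (b : ℝ) : ℂ := Real.pi * (-1 + Complex.I) / b

/-- exponentials -/
def ex (c : ℂ) (x : ℝ) : ℂ := Complex.exp (c * x)

lemma ex_ne (c : ℂ) (x : ℝ) : ex c x ≠ 0 := Complex.exp_ne_zero _

lemma ex_deriv (c : ℂ) (x : ℝ) : HasDerivAt (ex c) (c * ex c x) x := by
  have h1 : HasDerivAt (fun r : ℂ => Complex.exp (c * r)) (Complex.exp (c * x) * (c * 1)) (x : ℂ) :=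
    ((hasDerivAt_id (x : ℂ)).const_mul c).cexp
  refine (h1.comp_ofReal).congr_deriv ?_
  unfold ex
  ring

lemma ex_contDiff (c : ℂ) : ContDiff ℝ ⊤ (ex c) := by
  unfold ex
  exact (contDiff_const.mul Complex.ofRealCLM.contDiff).cexp

/-- `e^{κx} + e^{iκx}/2` and its derivatives -/
def y0 (K : ℂ) (x : ℝ) : ℂ := ex K x + 1 / 2 * ex (Complex.I * K) x
def y1 (K : ℂ) (x : ℝ) : ℂ := K * ex K x + 1 / 2 * (Complex.I * K) * ex (Complex.I * K) x
def y2 (K : ℂ) (x : ℝ) : ℂ := K ^ 2 * ex K x - 1 / 2 * K ^ 2 * ex (Complex.I * K) x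
def y3 (K : ℂ) (x : ℝ) : ℂ := K ^ 3 * ex K x - 1 / 2 * (Complex.I * K ^ 3) * ex (Complex.I * K) x

lemma y0_deriv (K : ℂ) (x : ℝ) : HasDerivAt (y0 K) (y1 K x) x := by
  refine ((ex_deriv K x).add ((ex_deriv (Complex.I * K) x).const_mul (1 / 2))).congr_deriv ?_
  unfold y1; ring

lemma y1_deriv (K : ℂ) (x : ℝ) : HasDerivAt (y1 K) (y2 K x) x := by
  refine (((ex_deriv K x).const_mul K).add ((ex_deriv (Complex.I * K) x).const_mul
    (1 / 2 * (Complex.I * K)))).congr_deriv ?_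
  unfold y2
  linear_combination (1 / 2 * K ^ 2 * ex (Complex.I * K) x) * Complex.I_sq

lemma y2_deriv (K : ℂ) (x : ℝ) : HasDerivAt (y2 K) (y3 K x) x := by
  refine (((ex_deriv K x).const_mul (K ^ 2)).sub ((ex_deriv (Complex.I * K) x).const_mul
    (1 / 2 * K ^ 2))).congr_deriv ?_
  unfold y3
  ring

lemma y3_deriv (K : ℂ) (x : ℝ) : HasDerivAt (y3 K) (K ^ 4 * y0 K x) x := by
  refine (((ex_deriv K x).const_mul (K ^ 3)).sub ((ex_deriv (Complex.I * K) x).const_mul
    (1 / 2 * (Complex.I * K ^ 3)))).congr_deriv ?_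
  unfold y0
  linear_combination (-1 / 2 * K ^ 4 * ex (Complex.I * K) x) * Complex.I_sq

lemma norm_ex (c : ℂ) (x : ℝ) : ‖ex c x‖ = Real.exp (c.re * x) := by
  unfold ex
  rw [Complex.norm_exp]
  simp

lemma kap_re (b : ℝ) : (Complex.I * kap b).re = (kap b).re := by
  unfold kap
  have h : (Real.pi : ℂ) * (-1 + Complex.I) / b = ((Real.pi / b : ℝ) : ℂ) * (-1 + Complex.I) := by
    push_cast; ring
  rw [h]
  simp

lemma y0_ne (b : ℝ) (x : ℝ) : y0 (kap b) x ≠ 0 := by
  intro h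
  unfold y0 at h
  have h1 : ex (kap b) x = -(1 / 2 * ex (Complex.I * kap b) x) := eq_neg_of_add_eq_zero_left h
  have h2 := congrArg norm h1
  rw [norm_neg, norm_mul, norm_ex, norm_ex, kap_re] at h2
  have h3 := Real.exp_pos ((kap b).re * x)
  norm_num at h2

lemma exp_kap (b : ℝ) (hb : 0 < b) :
    Complex.exp (Complex.I * kap b * b) = Complex.exp (kap b * b) := by
  have hb' : (b : ℂ) ≠ 0 := by exact_mod_cast hb.ne'
  have h : kap b * b = Complex.I * kap b * b + 2 * Real.pi * Complex.I := by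
    unfold kap
    field_simp
    linear_combination (-1 : ℂ) * Complex.I_sq
  rw [h, Complex.exp_add, Complex.exp_two_pi_mul_I, mul_one]

/-- the multiplier of `y` -/
def rho (b : ℝ) : ℂ := Complex.exp (kap b * b)

lemma ex_shift (c : ℂ) (x b : ℝ) : ex c (x + b) = Complex.exp (c * b) * ex c x := by
  unfold ex
  rw [← Complex.exp_add]
  congr 1
  push_cast
  ring

lemma ex1_shift (b : ℝ) (x : ℝ) : ex (kap b) (x + b) = rho b * ex (kap b) x := ex_shift _ _ _

lemma ex2_shift (b : ℝ) (hb : 0 < b) (x : ℝ) :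
    ex (Complex.I * kap b) (x + b) = rho b * ex (Complex.I * kap b) x := by
  rw [ex_shift, exp_kap b hb]; rfl

/-- the logarithmic derivatives -/
def ph (K : ℂ) (x : ℝ) : ℂ := y1 K x / y0 K x
def g2 (K : ℂ) (x : ℝ) : ℂ := y2 K x / y0 K x
def g3 (K : ℂ) (x : ℝ) : ℂ := y3 K x / y0 K x

lemma ph_deriv (b : ℝ) (x : ℝ) :
    HasDerivAt (ph (kap b)) (g2 (kap b) x - ph (kap b) x ^ 2) x := by
  refine ((y1_deriv (kap b) x).div (y0_deriv (kap b) x) (y0_ne b x)).congr_deriv ?_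
  unfold g2 ph
  have := y0_ne b x
  field_simp

lemma g2_deriv (b : ℝ) (x : ℝ) :
    HasDerivAt (g2 (kap b)) (g3 (kap b) x - ph (kap b) x * g2 (kap b) x) x := by
  refine ((y2_deriv (kap b) x).div (y0_deriv (kap b) x) (y0_ne b x)).congr_deriv ?_
  unfold g2 ph g3
  have := y0_ne b x
  field_simp

lemma g3_deriv (b : ℝ) (x : ℝ) :
    HasDerivAt (g3 (kap b)) (kap b ^ 4 - ph (kap b) x * g3 (kap b) x) x := by
  refine ((y3_deriv (kap b) x).div (y0_deriv (kap b) x) (y0_ne b x)).congr_deriv ?_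
  unfold ph g3
  have := y0_ne b x
  field_simp

/-- the coefficients -/
def coef (b : ℝ) : ℕ → ℝ → ℂ
  | 0 => fun x => 4 * kap b ^ 4 - 10 * ph (kap b) x * g3 (kap b) x - 4 * g2 (kap b) x ^ 2 +
      18 * ph (kap b) x ^ 2 * g2 (kap b) x - 8 * ph (kap b) x ^ 4
  | 1 => fun x => 6 * g3 (kap b) x - 14 * ph (kap b) x * g2 (kap b) x + 8 * ph (kap b) x ^ 3
  | 2 => fun x => 4 * (g2 (kap b) x - ph (kap b) x ^ 2)
  | _ => fun _ => 0

lemma y0_contDiff (K : ℂ) : ContDiff ℝ ⊤ (y0 K) :=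
  (ex_contDiff K).add (contDiff_const.mul (ex_contDiff _))

lemma y1_contDiff (K : ℂ) : ContDiff ℝ ⊤ (y1 K) :=
  (contDiff_const.mul (ex_contDiff K)).add (contDiff_const.mul (ex_contDiff _))

lemma y2_contDiff (K : ℂ) : ContDiff ℝ ⊤ (y2 K) :=
  (contDiff_const.mul (ex_contDiff K)).sub (contDiff_const.mul (ex_contDiff _))

lemma y3_contDiff (K : ℂ) : ContDiff ℝ ⊤ (y3 K) :=
  (contDiff_const.mul (ex_contDiff K)).sub (contDiff_const.mul (ex_contDiff _))

lemma ph_contDiff (b : ℝ) : ContDiff ℝ ⊤ (ph (kap b)) :=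
  (y1_contDiff _).mul ((y0_contDiff _).inv (y0_ne b))

lemma g2_contDiff (b : ℝ) : ContDiff ℝ ⊤ (g2 (kap b)) :=
  (y2_contDiff _).mul ((y0_contDiff _).inv (y0_ne b))

lemma g3_contDiff (b : ℝ) : ContDiff ℝ ⊤ (g3 (kap b)) :=
  (y3_contDiff _).mul ((y0_contDiff _).inv (y0_ne b))

lemma coef_contDiff (b : ℝ) (k : ℕ) : ContDiff ℝ ⊤ (coef b k) := by
  have h1 := ph_contDiff b
  have h2 := g2_contDiff b
  have h3 := g3_contDiff b
  rcases k with _ | _ | _ | k
  · unfold coef; fun_prop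
  · unfold coef; fun_prop
  · unfold coef; fun_prop
  · unfold coef; fun_prop

lemma rho_ne (b : ℝ) : rho b ≠ 0 := Complex.exp_ne_zero _

lemma ph_per (b : ℝ) (hb : 0 < b) (x : ℝ) : ph (kap b) (x + b) = ph (kap b) x := by
  unfold ph y1 y0
  rw [ex1_shift, ex2_shift b hb]
  have h := y0_ne b x
  unfold y0 at h
  have hr := rho_ne b
  rw [show kap b * (rho b * ex (kap b) x) + 1 / 2 * (Complex.I * kap b) *
      (rho b * ex (Complex.I * kap b) x) = rho b * (kap b * ex (kap b) x + 1 / 2 *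
      (Complex.I * kap b) * ex (Complex.I * kap b) x) by ring,
    show rho b * ex (kap b) x + 1 / 2 * (rho b * ex (Complex.I * kap b) x) =
      rho b * (ex (kap b) x + 1 / 2 * ex (Complex.I * kap b) x) by ring]
  exact mul_div_mul_left _ _ hr

lemma g2_per (b : ℝ) (hb : 0 < b) (x : ℝ) : g2 (kap b) (x + b) = g2 (kap b) x := by
  unfold g2 y2 y0
  rw [ex1_shift, ex2_shift b hb]
  have hr := rho_ne b
  rw [show kap b ^ 2 * (rho b * ex (kap b) x) - 1 / 2 * kap b ^ 2 *
      (rho b * ex (Complex.I * kap b) x) = rho b * (kap b ^ 2 * ex (kap b) x - 1 / 2 *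
      kap b ^ 2 * ex (Complex.I * kap b) x) by ring,
    show rho b * ex (kap b) x + 1 / 2 * (rho b * ex (Complex.I * kap b) x) =
      rho b * (ex (kap b) x + 1 / 2 * ex (Complex.I * kap b) x) by ring]
  exact mul_div_mul_left _ _ hr

lemma g3_per (b : ℝ) (hb : 0 < b) (x : ℝ) : g3 (kap b) (x + b) = g3 (kap b) x := by
  unfold g3 y3 y0
  rw [ex1_shift, ex2_shift b hb]
  have hr := rho_ne b
  rw [show kap b ^ 3 * (rho b * ex (kap b) x) - 1 / 2 * (Complex.I * kap b ^ 3) *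
      (rho b * ex (Complex.I * kap b) x) = rho b * (kap b ^ 3 * ex (kap b) x - 1 / 2 *
      (Complex.I * kap b ^ 3) * ex (Complex.I * kap b) x) by ring,
    show rho b * ex (kap b) x + 1 / 2 * (rho b * ex (Complex.I * kap b) x) =
      rho b * (ex (kap b) x + 1 / 2 * ex (Complex.I * kap b) x) by ring]
  exact mul_div_mul_left _ _ hr

lemma coef_per (b : ℝ) (hb : 0 < b) (k : ℕ) (x : ℝ) : coef b k (x + b) = coef b k x := by
  rcases k with _ | _ | _ | k
  · simp only [coef, ph_per b hb, g2_per b hb, g3_per b hb]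
  · simp only [coef, ph_per b hb, g2_per b hb, g3_per b hb]
  · simp only [coef, ph_per b hb, g2_per b hb]
  · rfl

/-! ### The explicit Floquet solutions `(k - φ) e^{kx}` -/

/-- the derivatives of `φ` -/
def p1 (b : ℝ) (x : ℝ) : ℂ := g2 (kap b) x - ph (kap b) x ^ 2
def p2 (b : ℝ) (x : ℝ) : ℂ := g3 (kap b) x - 3 * ph (kap b) x * g2 (kap b) x + 2 * ph (kap b) x ^ 3
def p3 (b : ℝ) (x : ℝ) : ℂ := kap b ^ 4 - 4 * ph (kap b) x * g3 (kap b) x - 3 * g2 (kap b) x ^ 2 +
  12 * ph (kap b) x ^ 2 * g2 (kap b) x - 6 * ph (kap b) x ^ 4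
def p4 (b : ℝ) (x : ℝ) : ℂ := -4 * (p1 b x * g3 (kap b) x + ph (kap b) x *
    (kap b ^ 4 - ph (kap b) x * g3 (kap b) x)) -
  6 * g2 (kap b) x * (g3 (kap b) x - ph (kap b) x * g2 (kap b) x) +
  24 * ph (kap b) x * p1 b x * g2 (kap b) x +
  12 * ph (kap b) x ^ 2 * (g3 (kap b) x - ph (kap b) x * g2 (kap b) x) -
  24 * ph (kap b) x ^ 3 * p1 b x

lemma p0_deriv (b : ℝ) (x : ℝ) : HasDerivAt (ph (kap b)) (p1 b x) x := ph_deriv b x

lemma p1_deriv (b : ℝ) (x : ℝ) : HasDerivAt (p1 b) (p2 b x) x := by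
  refine ((g2_deriv b x).sub ((ph_deriv b x).pow 2)).congr_deriv ?_
  unfold p2
  push_cast
  ring

lemma p2_deriv (b : ℝ) (x : ℝ) : HasDerivAt (p2 b) (p3 b x) x := by
  refine (((g3_deriv b x).sub (((ph_deriv b x).const_mul 3).mul (g2_deriv b x))).add
    (((ph_deriv b x).pow 3).const_mul 2)).congr_deriv ?_
  unfold p3
  push_cast
  ring

lemma p3_deriv (b : ℝ) (x : ℝ) : HasDerivAt (p3 b) (p4 b x) x := by
  refine ((((((ph_deriv b x).const_mul 4).mul (g3_deriv b x)).const_sub (kap b ^ 4)).sub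
    (((g2_deriv b x).pow 2).const_mul 3)).add
    ((((ph_deriv b x).pow 2).const_mul 12).mul (g2_deriv b x))).sub
    (((ph_deriv b x).pow 4).const_mul 6) |>.congr_deriv ?_
  unfold p4 p1
  simp only [Pi.pow_apply]
  push_cast
  ring

/-- the coefficients of the explicit solution -/
def c0 (b : ℝ) (k : ℂ) (x : ℝ) : ℂ := k - ph (kap b) x
def c1 (b : ℝ) (k : ℂ) (x : ℝ) : ℂ := -p1 b x + k ^ 2 - k * ph (kap b) x
def c2 (b : ℝ) (k : ℂ) (x : ℝ) : ℂ := -p2 b x - 2 * k * p1 b x + k ^ 3 - k ^ 2 * ph (kap b) x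
def c3 (b : ℝ) (k : ℂ) (x : ℝ) : ℂ :=
  -p3 b x - 3 * k * p2 b x - 3 * k ^ 2 * p1 b x + k ^ 4 - k ^ 3 * ph (kap b) x
def c4 (b : ℝ) (k : ℂ) (x : ℝ) : ℂ :=
  -p4 b x - 4 * k * p3 b x - 6 * k ^ 2 * p2 b x - 4 * k ^ 3 * p1 b x + k ^ 5 -
    k ^ 4 * ph (kap b) x

lemma c0_deriv (b : ℝ) (k : ℂ) (x : ℝ) :
    HasDerivAt (fun x => c0 b k x * ex k x) (c1 b k x * ex k x) x := by
  refine (((p0_deriv b x).const_sub k).mul (ex_deriv k x)).congr_deriv ?_
  unfold c1; ring

lemma c1_deriv (b : ℝ) (k : ℂ) (x : ℝ) :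
    HasDerivAt (fun x => c1 b k x * ex k x) (c2 b k x * ex k x) x := by
  have h : HasDerivAt (c1 b k) (-p2 b x - k * p1 b x) x := by
    refine (((p1_deriv b x).neg.add_const (k ^ 2)).sub ((p0_deriv b x).const_mul k)).congr_deriv ?_
    ring
  refine (h.mul (ex_deriv k x)).congr_deriv ?_
  unfold c2 c1; ring

lemma c2_deriv (b : ℝ) (k : ℂ) (x : ℝ) :
    HasDerivAt (fun x => c2 b k x * ex k x) (c3 b k x * ex k x) x := by
  have h : HasDerivAt (c2 b k) (-p3 b x - 2 * k * p2 b x - k ^ 2 * p1 b x) x := by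
    refine ((((p2_deriv b x).neg.sub ((p1_deriv b x).const_mul (2 * k))).add_const (k ^ 3)).sub
      ((p0_deriv b x).const_mul (k ^ 2))).congr_deriv ?_
    ring
  refine (h.mul (ex_deriv k x)).congr_deriv ?_
  unfold c3 c2; ring

lemma c3_deriv (b : ℝ) (k : ℂ) (x : ℝ) :
    HasDerivAt (fun x => c3 b k x * ex k x) (c4 b k x * ex k x) x := by
  have h : HasDerivAt (c3 b k) (-p4 b x - 3 * k * p3 b x - 3 * k ^ 2 * p2 b x - k ^ 3 * p1 b x)
      x := by
    refine (((((p3_deriv b x).neg.sub ((p2_deriv b x).const_mul (3 * k))).sub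
      ((p1_deriv b x).const_mul (3 * k ^ 2))).add_const (k ^ 4)).sub
      ((p0_deriv b x).const_mul (k ^ 3))).congr_deriv ?_
    ring
  refine (h.mul (ex_deriv k x)).congr_deriv ?_
  unfold c4 c3; ring

lemma c_eq (b : ℝ) (k : ℂ) (x : ℝ) :
    c4 b k x = k ^ 4 * c0 b k x - coef b 0 x * c0 b k x - coef b 1 x * c1 b k x -
      coef b 2 x * c2 b k x := by
  unfold c4 c2 c1 c0 p4 p3 p2 p1
  simp only [coef]
  ring

/-- the solution, as a solution of the first order system -/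
def sol (b : ℝ) (k : ℂ) (x : ℝ) : Fin 4 → ℂ :=
  ![c0 b k x * ex k x, c1 b k x * ex k x, c2 b k x * ex k x, c3 b k x * ex k x]

lemma sol_isSys (b : ℝ) (k : ℂ) : IsSys (comp4 (coef b)) spec4 (k ^ 4) (sol b k) := by
  rw [sys4_iff]
  intro x
  refine ⟨c0_deriv b k x, c1_deriv b k x, c2_deriv b k x, ?_⟩
  refine (c3_deriv b k x).congr_deriv ?_
  rw [c_eq]
  show _ = k ^ 4 * (c0 b k x * ex k x) - coef b 0 x * (c0 b k x * ex k x) -
    coef b 1 x * (c1 b k x * ex k x) - coef b 2 x * (c2 b k x * ex k x)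
  ring

lemma kap_ne (b : ℝ) (hb : 0 < b) : kap b ≠ 0 := by
  unfold kap
  have h1 : (Real.pi : ℂ) ≠ 0 := by exact_mod_cast Real.pi_ne_zero
  have h2 : (-1 + Complex.I) ≠ 0 := by
    intro h
    have := congrArg Complex.re h
    simp at this
  have h3 : (b : ℂ) ≠ 0 := by exact_mod_cast hb.ne'
  exact div_ne_zero (mul_ne_zero h1 h2) h3

lemma p1_ne (b : ℝ) (hb : 0 < b) (x : ℝ) : p1 b x ≠ 0 := by
  have h : p1 b x = -(Complex.I * kap b ^ 2 * ex (kap b) x * ex (Complex.I * kap b) x) /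
      y0 (kap b) x ^ 2 := by
    unfold p1 g2 ph
    have h0 := y0_ne b x
    rw [div_pow, eq_div_iff (pow_ne_zero 2 h0), sub_mul, div_mul_cancel₀ _ (pow_ne_zero 2 h0)]
    rw [pow_two (y0 (kap b) x), ← mul_assoc, div_mul_cancel₀ _ h0]
    unfold y2 y0 y1
    linear_combination (-1 / 4 * kap b ^ 2 * ex (Complex.I * kap b) x ^ 2) * Complex.I_sq
  rw [h]
  have h0 := y0_ne b x
  have h1 := kap_ne b hb
  have h2 := ex_ne (kap b) x
  have h3 := ex_ne (Complex.I * kap b) x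
  have h4 := Complex.I_ne_zero
  exact div_ne_zero (neg_ne_zero.2 (by positivity)) (pow_ne_zero 2 h0)

lemma sol_zero_ne (b : ℝ) (hb : 0 < b) (k : ℂ) : sol b k 0 ≠ 0 := by
  intro h
  have hc : Continuous (comp4 (coef b)) := comp4_cont (fun k => (coef_contDiff b k).continuous)
  have hz : IsSys (comp4 (coef b)) spec4 (k ^ 4) (fun _ => (0 : Fin 4 → ℂ)) := by
    intro x
    refine (hasDerivAt_const x (0 : Fin 4 → ℂ)).congr_deriv ?_
    simp
  have h1 := sys_unique hc (sol_isSys b k) hz h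
  have h2 : ∀ x, c0 b k x = 0 := by
    intro x
    have h3 := congrFun (congrFun h1 x) 0
    have h4 : c0 b k x * ex k x = 0 := h3
    exact (mul_eq_zero.1 h4).resolve_right (ex_ne k x)
  have h3 : ph (kap b) = fun _ => k := by
    funext x
    have := h2 x
    unfold c0 at this
    exact (sub_eq_zero.1 this).symm
  have h4 := p0_deriv b 0
  rw [h3] at h4
  exact p1_ne b hb 0 (h4.unique (hasDerivAt_const 0 k))

lemma sol_shift (b : ℝ) (hb : 0 < b) (k : ℂ) : sol b k b = Complex.exp (k * b) • sol b k 0 := by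
  have e1 : ph (kap b) b = ph (kap b) 0 := by simpa using ph_per b hb 0
  have e2 : g2 (kap b) b = g2 (kap b) 0 := by simpa using g2_per b hb 0
  have e3 : g3 (kap b) b = g3 (kap b) 0 := by simpa using g3_per b hb 0
  have e4 : ex k b = Complex.exp (k * b) * ex k 0 := by simpa using ex_shift k 0 b
  have f0 : c0 b k b = c0 b k 0 := by unfold c0; rw [e1]
  have f1 : c1 b k b = c1 b k 0 := by unfold c1 p1; rw [e1, e2]
  have f2 : c2 b k b = c2 b k 0 := by unfold c2 p1 p2; rw [e1, e2, e3]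
  have f3 : c3 b k b = c3 b k 0 := by unfold c3 p1 p2 p3; rw [e1, e2, e3]
  funext i
  fin_cases i
  · show c0 b k b * ex k b = Complex.exp (k * b) * (c0 b k 0 * ex k 0)
    rw [f0, e4]; ring
  · show c1 b k b * ex k b = Complex.exp (k * b) * (c1 b k 0 * ex k 0)
    rw [f1, e4]; ring
  · show c2 b k b * ex k b = Complex.exp (k * b) * (c2 b k 0 * ex k 0)
    rw [f2, e4]; ring
  · show c3 b k b * ex k b = Complex.exp (k * b) * (c3 b k 0 * ex k 0)
    rw [f3, e4]; ring

/-! ### The multiplier curve -/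

/-- the Floquet matrix -/
lemma exists_T (b : ℝ) (hb : 0 < b) : ∃ T : ℂ → Matrix (Fin 4) (Fin 4) ℂ,
    IsFloquet 4 b (coef b) T ∧ (∀ i j, Differentiable ℂ (fun l => T l i j)) ∧
    ∀ l Z, IsSys (comp4 (coef b)) spec4 l Z → T l *ᵥ Z 0 = Z b := by
  have hp : ∀ k, Continuous (coef b k) := fun k => (coef_contDiff b k).continuous
  obtain ⟨T, h1, _, h3, h4⟩ := floquet4 hp (b := b) (fun k x => coef_per b hb k x)
  refine ⟨T, ?_, h3, h4⟩
  obtain ⟨u, hu, _⟩ := h1
  refine ⟨u, hu, fun l k j => ?_⟩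
  have h5 := h4 l _ (sys_of_sol (hu l j).1)
  have h6 := congrFun h5 k
  rw [← h6]
  have h7 : (fun i : Fin 4 => iteratedDeriv i (u l j) 0) = Pi.single j 1 := by
    funext i
    rw [(hu l j).2 i]
    simp [Pi.single_apply]
  show T l k j = (T l *ᵥ (fun i : Fin 4 => iteratedDeriv i (u l j) 0)) k
  rw [h7]
  simp

/-- the four multipliers -/
def mult (b : ℝ) (k : ℂ) (j : Fin 4) : ℂ := Complex.exp (Complex.I ^ (j : ℕ) * k * b)

lemma mult_root {b : ℝ} (hb : 0 < b) {T : ℂ → Matrix (Fin 4) (Fin 4) ℂ}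
    (hT : ∀ l Z, IsSys (comp4 (coef b)) spec4 l Z → T l *ᵥ Z 0 = Z b) (k : ℂ) (j : Fin 4) :
    (T (k ^ 4)).charpoly.eval (mult b k j) = 0 := by
  have hk : (Complex.I ^ (j : ℕ) * k) ^ 4 = k ^ 4 := by
    rw [mul_pow, ← pow_mul, mul_comm (j : ℕ) 4, pow_mul, Complex.I_pow_four, one_pow, one_mul]
  have h1 := hT _ _ (sol_isSys b (Complex.I ^ (j : ℕ) * k))
  rw [hk, sol_shift b hb] at h1
  rw [Matrix.eval_charpoly, ← Matrix.exists_mulVec_eq_zero_iff]
  refine ⟨sol b (Complex.I ^ (j : ℕ) * k) 0, sol_zero_ne b hb _, ?_⟩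
  rw [Matrix.sub_mulVec, h1]
  have h2 : (Matrix.scalar (Fin 4) (mult b k j)) *ᵥ sol b (Complex.I ^ (j : ℕ) * k) 0 =
      mult b k j • sol b (Complex.I ^ (j : ℕ) * k) 0 := by
    rw [Matrix.scalar_apply, ← Matrix.smul_one_eq_diagonal, Matrix.smul_mulVec, Matrix.one_mulVec]
  rw [h2]
  unfold mult
  rw [sub_self]

lemma det_eq_of_distinct {b : ℝ} (hb : 0 < b) {T : ℂ → Matrix (Fin 4) (Fin 4) ℂ}
    (hT : ∀ l Z, IsSys (comp4 (coef b)) spec4 l Z → T l *ᵥ Z 0 = Z b) (k : ℂ)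
    (hk : Function.Injective (mult b k)) (r : ℂ) :
    (T (k ^ 4)).charpoly.eval r = ∏ j : Fin 4, (r - mult b k j) := by
  have h : (T (k ^ 4)).charpoly = ∏ j : Fin 4, (Polynomial.X - Polynomial.C (mult b k j)) := by
    have hm : (∏ j : Fin 4, (Polynomial.X - Polynomial.C (mult b k j))).Monic :=
      Polynomial.monic_prod_of_monic _ _ (fun j _ => Polynomial.monic_X_sub_C _)
    have hd : (∏ j : Fin 4, (Polynomial.X - Polynomial.C (mult b k j))).natDegree = 4 := by
      rw [Polynomial.natDegree_prod_of_monic _ _ (fun j _ => Polynomial.monic_X_sub_C _)]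
      simp
    have hd' : (T (k ^ 4)).charpoly.natDegree = 4 := by
      rw [Matrix.charpoly_natDegree_eq_dim]; simp
    have hcm := Matrix.charpoly_monic (T (k ^ 4))
    apply Polynomial.eq_of_degree_sub_lt_of_eval_finset_eq (Finset.univ.image (mult b k))
    · rw [Finset.card_image_of_injective _ hk, Finset.card_univ, Fintype.card_fin]
      have h1 : (T (k ^ 4)).charpoly.degree = 4 := by
        rw [Polynomial.degree_eq_natDegree hcm.ne_zero, hd']; rfl
      refine lt_of_lt_of_eq (Polynomial.degree_sub_lt_left ?_ hcm.ne_zero ?_) h1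
      · rw [h1, Polynomial.degree_eq_natDegree hm.ne_zero, hd]; rfl
      · rw [hcm.leadingCoeff, hm.leadingCoeff]
    · intro x hx
      rw [Finset.mem_image] at hx
      obtain ⟨j, _, rfl⟩ := hx
      rw [mult_root hb hT, Polynomial.eval_prod]
      symm
      apply Finset.prod_eq_zero (Finset.mem_univ j)
      simp
  rw [h, Polynomial.eval_prod]
  simp

lemma I_pow_inj {i j : Fin 4} (h : Complex.I ^ (i : ℕ) = Complex.I ^ (j : ℕ)) : i = j := by
  have h1 : Complex.I ≠ 1 := by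
    intro h; have := congrArg Complex.re h; simp at this
  have h2 : Complex.I ≠ -1 := by
    intro h; have := congrArg Complex.re h; simp at this
  have h3 : Complex.I ≠ -Complex.I := by
    intro h; have := congrArg Complex.im h; norm_num at this
  have h4 : (1 : ℂ) ≠ -1 := by norm_num
  have h5 : (1 : ℂ) ≠ -Complex.I := by
    intro h; have := congrArg Complex.re h; simp at this
  have e2 := Complex.I_sq
  have e3 : Complex.I ^ 3 = -Complex.I := by
    rw [pow_succ, e2]; ring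
  fin_cases i <;> fin_cases j <;> simp [e2, e3] at h <;> first
    | rfl
    | exact absurd h h1
    | exact absurd h.symm h1
    | exact absurd h h2
    | exact absurd h.symm h2
    | exact absurd h h3
    | exact absurd h.symm h3
    | exact absurd h h4
    | exact absurd h.symm h4
    | exact absurd h h5
    | exact absurd h.symm h5

lemma dense_good {b : ℝ} (hb : 0 < b) : Dense {k : ℂ | Function.Injective (mult b k)} := by
  have hb' : (b : ℂ) ≠ 0 := by exact_mod_cast hb.ne'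
  set S : Set ℂ := ⋃ i : Fin 4, ⋃ j : Fin 4, {k : ℂ | i ≠ j ∧ mult b k i = mult b k j} with hS
  have hcount : S.Countable := by
    apply Set.countable_iUnion
    intro i
    apply Set.countable_iUnion
    intro j
    by_cases hij : i = j
    · have : {k : ℂ | i ≠ j ∧ mult b k i = mult b k j} = ∅ := by
        ext k; simp [hij]
      rw [this]
      exact Set.countable_empty
    · have hd : (Complex.I ^ (i : ℕ) - Complex.I ^ (j : ℕ)) ≠ 0 := by
        intro h
        exact hij (I_pow_inj (sub_eq_zero.1 h))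
      apply (Set.countable_range (fun n : ℤ => (n * (2 * Real.pi * Complex.I)) /
        ((Complex.I ^ (i : ℕ) - Complex.I ^ (j : ℕ)) * b))).mono
      rintro k ⟨_, hk⟩
      unfold mult at hk
      rw [Complex.exp_eq_exp_iff_exists_int] at hk
      obtain ⟨n, hn⟩ := hk
      refine ⟨n, ?_⟩
      simp only
      rw [div_eq_iff (mul_ne_zero hd hb')]
      linear_combination (-1 : ℂ) * hn
  have h1 : Sᶜ ⊆ {k : ℂ | Function.Injective (mult b k)} := by
    intro k hk i j hij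
    by_contra hne
    apply hk
    rw [hS]
    simp only [Set.mem_iUnion]
    exact ⟨i, j, hne, hij⟩
  exact (hcount.dense_compl ℝ).mono h1

lemma det_eq {b : ℝ} (hb : 0 < b) {T : ℂ → Matrix (Fin 4) (Fin 4) ℂ}
    (hT : ∀ l Z, IsSys (comp4 (coef b)) spec4 l Z → T l *ᵥ Z 0 = Z b)
    (hd : ∀ i j, Differentiable ℂ (fun l => T l i j)) (k r : ℂ) :
    (r • (1 : Matrix (Fin 4) (Fin 4) ℂ) - T (k ^ 4)).det = ∏ j : Fin 4, (r - mult b k j) := by
  have hTc : Continuous T := by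
    refine continuous_matrix fun i j => (hd i j).continuous
  have h1 : Continuous (fun k : ℂ => (r • (1 : Matrix (Fin 4) (Fin 4) ℂ) - T (k ^ 4)).det) := by
    apply Continuous.matrix_det
    exact continuous_const.sub (hTc.comp (continuous_pow 4))
  have h2 : Continuous (fun k : ℂ => ∏ j : Fin 4, (r - mult b k j)) := by
    unfold mult
    fun_prop
  have h3 := Continuous.ext_on (dense_good hb) h1 h2 (by
    intro k hk
    simp only
    rw [← det_eq_of_distinct hb hT k hk r, Matrix.eval_charpoly]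
    congr 2
    rw [Matrix.scalar_apply, ← Matrix.smul_one_eq_diagonal])
  exact congrFun h3 k

/-! ### The function `Δ(w) = 2 cosh (b √w)` -/

/-- the discriminant -/
def Del (b : ℝ) (w : ℂ) : ℂ := 2 * Complex.cosh (b * w ^ (1 / 2 : ℂ))

lemma Del_sq (b : ℝ) (k : ℂ) : Del b (k ^ 2) = 2 * Complex.cosh (b * k) := by
  unfold Del
  have h : ((k ^ 2) ^ (1 / 2 : ℂ)) ^ 2 = k ^ 2 := by
    rw [← Complex.cpow_nat_mul]
    simp
  rcases sq_eq_sq_iff_eq_or_eq_neg.1 h with h1 | h1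
  · rw [h1]
  · rw [h1, mul_neg, Complex.cosh_neg]

lemma Del_neg (b : ℝ) (w : ℂ) :
    Del b w = 2 * Complex.cos (b * (-w) ^ (1 / 2 : ℂ)) := by
  set k := (-w) ^ (1 / 2 : ℂ) with hk
  have h : k ^ 2 = -w := by
    rw [hk, ← Complex.cpow_nat_mul]
    simp
  have h2 : w = (Complex.I * k) ^ 2 := by
    rw [mul_pow, h, Complex.I_sq]; ring
  rw [h2, Del_sq]
  have h3 : (b : ℂ) * (Complex.I * k) = (b * k) * Complex.I := by ring
  rw [h3, Complex.cosh_mul_I]

lemma Del_differentiableAt (b : ℝ) {w : ℂ} (hw : w ≠ 0) : DifferentiableAt ℂ (Del b) w := by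
  by_cases h : w ∈ Complex.slitPlane
  · unfold Del
    have h1 : DifferentiableAt ℂ (fun w : ℂ => w ^ (1 / 2 : ℂ)) w :=
      differentiableAt_id.cpow_const h
    exact ((h1.const_mul (b : ℂ)).ccosh).const_mul 2
  · have h' : -w ∈ Complex.slitPlane := by
      rw [Complex.mem_slitPlane_iff] at h ⊢
      push Not at h
      left
      rcases lt_or_eq_of_le h.1 with h1 | h1
      · simpa using h1
      · exfalso
        apply hw
        apply Complex.ext
        · simpa using h1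
        · simpa using h.2
    have h1 : Del b = fun w => 2 * Complex.cos (b * (-w) ^ (1 / 2 : ℂ)) := funext (Del_neg b)
    rw [h1]
    have h2 : DifferentiableAt ℂ (fun w : ℂ => (-w) ^ (1 / 2 : ℂ)) w :=
      (differentiableAt_id.neg).cpow_const h'
    exact ((h2.const_mul (b : ℂ)).ccos).const_mul 2

lemma Del_differentiable (b : ℝ) : Differentiable ℂ (Del b) := by
  intro w
  by_cases hw : w = 0
  · subst hw
    have hc : ContinuousAt (Del b) 0 := by
      unfold Del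
      have h1 : ContinuousAt (fun w : ℂ => w ^ (1 / 2 : ℂ)) 0 := by
        have h2 : Tendsto (fun w : ℂ => w ^ (1 / 2 : ℂ)) (𝓝 0) (𝓝 0) := by
          rw [tendsto_zero_iff_norm_tendsto_zero]
          have h3 : (fun w : ℂ => ‖w ^ (1 / 2 : ℂ)‖) = fun w : ℂ => ‖w‖ ^ (1 / 2 : ℝ) := by
            funext w
            have h4 : (1 / 2 : ℂ) = ((1 / 2 : ℝ) : ℂ) := by push_cast; rfl
            rw [h4, Complex.norm_cpow_real]
          rw [h3]
          have h5 : ContinuousAt (fun w : ℂ => ‖w‖ ^ (1 / 2 : ℝ)) 0 :=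
            (continuous_norm.continuousAt).rpow_const (Or.inr (by norm_num))
          have h6 := h5.tendsto
          simpa using h6
        unfold ContinuousAt
        simpa using h2
      exact ((Complex.continuous_cosh.continuousAt.comp
        (continuousAt_const.mul h1))).const_mul 2 |> fun h => by
          exact h
    have h := Complex.analyticAt_of_differentiable_on_punctured_nhds_of_continuousAt
      (f := Del b) (c := 0) (by
        filter_upwards [self_mem_nhdsWithin] with z hz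
        exact Del_differentiableAt b hz) hc
    exact h.differentiableAt
  · exact Del_differentiableAt b hw

lemma roots_sq (m : ℂ) : ((Polynomial.X : Polynomial ℂ) ^ 2 - Polynomial.C (m ^ 2)).roots =
    {m, -m} := by
  have h : (Polynomial.X : Polynomial ℂ) ^ 2 - Polynomial.C (m ^ 2) =
      (Polynomial.X - Polynomial.C m) * (Polynomial.X - Polynomial.C (-m)) := by
    simp only [map_neg, map_pow]; ring
  rw [h, Polynomial.roots_mul, Polynomial.roots_X_sub_C, Polynomial.roots_X_sub_C]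
  · rfl
  · exact mul_ne_zero (Polynomial.X_sub_C_ne_zero _) (Polynomial.X_sub_C_ne_zero _)

lemma factor_aux {r A B : ℂ} (hr : r ≠ 0) (h : A * B = 1) :
    r + r⁻¹ - (A + B) = (r - A) * (r - B) * r⁻¹ := by
  field_simp
  linear_combination (-1 : ℂ) * h

lemma curve_eq (b : ℝ) (k r : ℂ) (hr : r ≠ 0) :
    curveProduct (Polynomial.X ^ 2) (Del b) (k ^ 4) r =
      (∏ j : Fin 4, (r - mult b k j)) * r⁻¹ ^ 2 := by
  unfold curveProduct
  have h1 : k ^ 4 = (k ^ 2) ^ 2 := by ring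
  rw [h1, roots_sq]
  have h2 : -(k ^ 2) = (Complex.I * k) ^ 2 := by rw [mul_pow, Complex.I_sq]; ring
  rw [h2]
  simp only [Multiset.insert_eq_cons, Multiset.map_cons, Multiset.map_singleton,
    Multiset.prod_cons, Multiset.prod_singleton]
  rw [Del_sq, Del_sq, Fin.prod_univ_four]
  have e0 : mult b k 0 = Complex.exp (b * k) := by
    unfold mult; congr 1; simp; ring
  have e1 : mult b k 1 = Complex.exp (b * (Complex.I * k)) := by
    unfold mult; congr 1; simp; ring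
  have e2 : mult b k 2 = Complex.exp (-(b * k)) := by
    unfold mult; congr 1; simp; ring
  have e3 : mult b k 3 = Complex.exp (-(b * (Complex.I * k))) := by
    unfold mult
    congr 1
    have : Complex.I ^ 3 = -Complex.I := by
      rw [pow_succ, Complex.I_sq]; ring
    show Complex.I ^ 3 * k * b = _
    rw [this]; ring
  rw [e0, e1, e2, e3, Complex.two_cosh, Complex.two_cosh]
  have f1 : Complex.exp (b * k) * Complex.exp (-(b * k)) = 1 := by
    rw [← Complex.exp_add]; simp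
  have f2 : Complex.exp (b * (Complex.I * k)) * Complex.exp (-(b * (Complex.I * k))) = 1 := by
    rw [← Complex.exp_add]; simp
  have g1 : r + r⁻¹ - (Complex.exp (b * k) + Complex.exp (-(b * k))) =
      (r - Complex.exp (b * k)) * (r - Complex.exp (-(b * k))) * r⁻¹ := factor_aux hr f1
  have g2 : r + r⁻¹ - (Complex.exp (b * (Complex.I * k)) + Complex.exp (-(b * (Complex.I * k)))) =
      (r - Complex.exp (b * (Complex.I * k))) * (r - Complex.exp (-(b * (Complex.I * k)))) *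
        r⁻¹ := factor_aux hr f2
  rw [g1, g2]
  ring

/-! ### The operator is not a polynomial of a Hill operator -/

lemma id4 (x0 : ℝ) : iteratedDeriv 1 (fun x : ℝ => ((x : ℂ) - x0)) = (fun _ => 1) ∧
    iteratedDeriv 2 (fun x : ℝ => ((x : ℂ) - x0)) = (fun _ => 0) ∧
    iteratedDeriv 4 (fun x : ℝ => ((x : ℂ) - x0)) = (fun _ => 0) := by
  have h0 : ∀ x : ℝ, HasDerivAt (fun x : ℝ => ((x : ℂ) - x0)) 1 x := fun x =>
    (Complex.ofRealCLM.hasDerivAt (x := x)).sub_const _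
  have e1 : iteratedDeriv 1 (fun x : ℝ => ((x : ℂ) - x0)) = (fun _ => 1) := by
    rw [iteratedDeriv_one]; funext x; exact (h0 x).deriv
  have e2 : iteratedDeriv 2 (fun x : ℝ => ((x : ℂ) - x0)) = (fun _ => 0) := by
    rw [iteratedDeriv_succ, e1]; funext x; simp
  have e3 : iteratedDeriv 3 (fun x : ℝ => ((x : ℂ) - x0)) = (fun _ => 0) := by
    rw [iteratedDeriv_succ, e2]; funext x; simp
  refine ⟨e1, e2, ?_⟩
  rw [iteratedDeriv_succ, e3]; funext x; simp

lemma id4sq (x0 : ℝ) :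
    iteratedDeriv 1 (fun x : ℝ => ((x : ℂ) - x0) ^ 2) = (fun x : ℝ => 2 * ((x : ℂ) - x0)) ∧
    iteratedDeriv 2 (fun x : ℝ => ((x : ℂ) - x0) ^ 2) = (fun _ => 2) ∧
    iteratedDeriv 4 (fun x : ℝ => ((x : ℂ) - x0) ^ 2) = (fun _ => 0) := by
  have h0 : ∀ x : ℝ, HasDerivAt (fun x : ℝ => ((x : ℂ) - x0)) 1 x := fun x =>
    (Complex.ofRealCLM.hasDerivAt (x := x)).sub_const _
  have e1 : iteratedDeriv 1 (fun x : ℝ => ((x : ℂ) - x0) ^ 2) =
      (fun x : ℝ => 2 * ((x : ℂ) - x0)) := by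
    rw [iteratedDeriv_one]; funext x
    exact (((h0 x).pow 2).congr_deriv (by simp) : HasDerivAt (fun x : ℝ => ((x : ℂ) - x0) ^ 2)
      (2 * ((x : ℂ) - x0)) x).deriv
  have e2 : iteratedDeriv 2 (fun x : ℝ => ((x : ℂ) - x0) ^ 2) = (fun _ => 2) := by
    rw [iteratedDeriv_succ, e1]; funext x
    have := ((h0 x).const_mul 2).deriv
    simpa using this
  have e3 : iteratedDeriv 3 (fun x : ℝ => ((x : ℂ) - x0) ^ 2) = (fun _ => 0) := by
    rw [iteratedDeriv_succ, e2]; funext x; simp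
  refine ⟨e1, e2, ?_⟩
  rw [iteratedDeriv_succ, e3]; funext x; simp

lemma hill_u1 (q : ℝ → ℂ) (hq : ContDiff ℝ 2 q) (x0 : ℝ) :
    hill q (fun x : ℝ => ((x : ℂ) - x0)) x0 = 0 ∧
    hill q (hill q (fun x : ℝ => ((x : ℂ) - x0))) x0 = 2 * deriv q x0 := by
  have h0 : ∀ x : ℝ, HasDerivAt (fun x : ℝ => ((x : ℂ) - x0)) 1 x := fun x =>
    (Complex.ofRealCLM.hasDerivAt (x := x)).sub_const _
  have e : hill q (fun x : ℝ => ((x : ℂ) - x0)) = fun x : ℝ => q x * ((x : ℂ) - x0) := by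
    funext x
    unfold hill
    rw [(id4 x0).2.1]; simp
  have hq1 : ∀ x, HasDerivAt q (deriv q x) x := fun x =>
    ((hq.differentiable (by norm_num)) x).hasDerivAt
  have hq2 : ∀ x, HasDerivAt (deriv q) (deriv (deriv q) x) x := fun x => by
    have h := hq.differentiable_iteratedDeriv 1 (by norm_num)
    rw [iteratedDeriv_one] at h
    exact (h x).hasDerivAt
  constructor
  · rw [e]; simp
  · rw [e]
    unfold hill
    have e1 : iteratedDeriv 1 (fun x : ℝ => q x * ((x : ℂ) - x0)) =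
        fun x : ℝ => deriv q x * ((x : ℂ) - x0) + q x := by
      rw [iteratedDeriv_one]; funext x
      exact (((hq1 x).mul (h0 x)).congr_deriv (by simp) :
        HasDerivAt (fun x : ℝ => q x * ((x : ℂ) - x0)) (deriv q x * ((x : ℂ) - x0) + q x) x).deriv
    have e2 : iteratedDeriv 2 (fun x : ℝ => q x * ((x : ℂ) - x0)) x0 = 2 * deriv q x0 := by
      rw [iteratedDeriv_succ, e1]
      have := (((hq2 x0).mul (h0 x0)).add (hq1 x0)).deriv
      refine Eq.trans ?_ (this.trans ?_)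
      · rfl
      · simp; ring
    rw [e2]; simp

lemma hill_u2 (q : ℝ → ℂ) (hq : ContDiff ℝ 2 q) (x0 : ℝ) :
    hill q (fun x : ℝ => ((x : ℂ) - x0) ^ 2) x0 = 2 ∧
    hill q (hill q (fun x : ℝ => ((x : ℂ) - x0) ^ 2)) x0 = 4 * q x0 := by
  have h0 : ∀ x : ℝ, HasDerivAt (fun x : ℝ => ((x : ℂ) - x0)) 1 x := fun x =>
    (Complex.ofRealCLM.hasDerivAt (x := x)).sub_const _
  have h1 : ∀ x : ℝ, HasDerivAt (fun x : ℝ => ((x : ℂ) - x0) ^ 2) (2 * ((x : ℂ) - x0)) x :=
    fun x => ((h0 x).pow 2).congr_deriv (by simp)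
  have e : hill q (fun x : ℝ => ((x : ℂ) - x0) ^ 2) =
      fun x : ℝ => 2 + q x * ((x : ℂ) - x0) ^ 2 := by
    funext x
    unfold hill
    rw [(id4sq x0).2.1]
  have hq1 : ∀ x, HasDerivAt q (deriv q x) x := fun x =>
    ((hq.differentiable (by norm_num)) x).hasDerivAt
  have hq2 : ∀ x, HasDerivAt (deriv q) (deriv (deriv q) x) x := fun x => by
    have h := hq.differentiable_iteratedDeriv 1 (by norm_num)
    rw [iteratedDeriv_one] at h
    exact (h x).hasDerivAt
  constructor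
  · rw [e]; simp
  · rw [e]
    unfold hill
    have e1 : iteratedDeriv 1 (fun x : ℝ => 2 + q x * ((x : ℂ) - x0) ^ 2) =
        fun x : ℝ => deriv q x * ((x : ℂ) - x0) ^ 2 + q x * (2 * ((x : ℂ) - x0)) := by
      rw [iteratedDeriv_one]; funext x
      exact (((hq1 x).mul (h1 x)).const_add 2).deriv
    have e2 : iteratedDeriv 2 (fun x : ℝ => 2 + q x * ((x : ℂ) - x0) ^ 2) x0 = 2 * q x0 := by
      rw [iteratedDeriv_succ, e1]
      have := (((hq2 x0).mul (h1 x0)).add ((hq1 x0).mul ((h0 x0).const_mul 2))).deriv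
      refine Eq.trans ?_ (this.trans ?_)
      · rfl
      · simp; ring
    rw [e2]; simp; ring

lemma opL_u1 (p : ℕ → ℝ → ℂ) (x0 : ℝ) :
    opL 4 p (fun x : ℝ => ((x : ℂ) - x0)) x0 = p 1 x0 := by
  unfold opL
  rw [(id4 x0).2.2]
  simp only [Nat.add_one_sub_one, Finset.sum_range_succ, Finset.sum_range_zero]
  rw [(id4 x0).1, (id4 x0).2.1, iteratedDeriv_zero]
  simp

lemma opL_u2 (p : ℕ → ℝ → ℂ) (x0 : ℝ) :
    opL 4 p (fun x : ℝ => ((x : ℂ) - x0) ^ 2) x0 = 2 * p 2 x0 := by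
  unfold opL
  rw [(id4sq x0).2.2]
  simp only [Nat.add_one_sub_one, Finset.sum_range_succ, Finset.sum_range_zero]
  rw [(id4sq x0).1, (id4sq x0).2.1, iteratedDeriv_zero]
  simp
  ring

lemma g3_ne (b : ℝ) (hb : 0 < b) (x : ℝ) :
    g3 (kap b) x - ph (kap b) x * g2 (kap b) x ≠ 0 := by
  have h : g3 (kap b) x - ph (kap b) x * g2 (kap b) x =
      (kap b ^ 3 * (1 - Complex.I) * ex (kap b) x * ex (Complex.I * kap b) x) /
      y0 (kap b) x ^ 2 := by
    unfold g2 ph g3
    have h0 := y0_ne b x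
    rw [eq_div_iff (pow_ne_zero 2 h0), sub_mul, pow_two, ← mul_assoc, div_mul_cancel₀ _ h0,
      div_mul_div_comm, div_mul_cancel₀ _ (mul_ne_zero h0 h0)]
    unfold y2 y0 y1 y3
    ring
  rw [h]
  have h0 := y0_ne b x
  have h1 := kap_ne b hb
  have h2 := ex_ne (kap b) x
  have h3 := ex_ne (Complex.I * kap b) x
  have h4 : (1 - Complex.I) ≠ 0 := by
    intro h; have := congrArg Complex.re h; simp at this
  exact div_ne_zero (by positivity) (pow_ne_zero 2 h0)

lemma not_hill (b : ℝ) (hb : 0 < b) (R : Polynomial ℂ) (q : ℝ → ℂ) (hR : R.Monic)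
    (hd : R.natDegree = 2) (hq : ContDiff ℝ 2 q) :
    ∃ u : ℝ → ℂ, ContDiff ℝ ⊤ u ∧ ∃ x, opL 4 (coef b) u x ≠ polyHill R q u x := by
  by_contra hcon
  push Not at hcon
  have hc2 : R.coeff 2 = 1 := by
    have := hR.coeff_natDegree; rwa [hd] at this
  have hpoly : ∀ u x, polyHill R q u x = R.coeff 0 * u x + R.coeff 1 * hill q u x +
      hill q (hill q u) x := by
    intro u x
    unfold polyHill
    rw [hd]
    simp only [Finset.sum_range_succ, Finset.sum_range_zero, hc2]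
    simp
  have hs1 : ∀ x0 : ℝ, ContDiff ℝ ⊤ (fun x : ℝ => ((x : ℂ) - x0)) := fun x0 =>
    Complex.ofRealCLM.contDiff.sub contDiff_const
  have E1 : ∀ x0, coef b 1 x0 = 2 * deriv q x0 := by
    intro x0
    have h := hcon _ (hs1 x0) x0
    rw [opL_u1, hpoly, (hill_u1 q hq x0).1, (hill_u1 q hq x0).2] at h
    simpa using h
  have E2 : ∀ x0, coef b 2 x0 = R.coeff 1 + 2 * q x0 := by
    intro x0
    have h := hcon _ ((hs1 x0).pow 2) x0
    rw [opL_u2, hpoly, (hill_u2 q hq x0).1, (hill_u2 q hq x0).2] at h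
    have h' : 2 * coef b 2 x0 = R.coeff 1 * 2 + 4 * q x0 := by simpa using h
    linear_combination (1 / 2 : ℂ) * h'
  have hq1 : ∀ x, HasDerivAt q (deriv q x) x := fun x =>
    ((hq.differentiable (by norm_num)) x).hasDerivAt
  have E3 : HasDerivAt (coef b 2) (2 * deriv q 0) 0 := by
    have : coef b 2 = fun x0 => R.coeff 1 + 2 * q x0 := funext E2
    rw [this]
    exact ((hq1 0).const_mul 2).const_add _
  have E4 : HasDerivAt (coef b 2) (4 * p2 b 0) 0 := (p1_deriv b 0).const_mul 4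
  have E5 := E3.unique E4
  rw [← E1 0] at E5
  apply g3_ne b hb 0
  have E6 : coef b 1 0 = 6 * g3 (kap b) 0 - 14 * ph (kap b) 0 * g2 (kap b) 0 +
    8 * ph (kap b) 0 ^ 3 := rfl
  rw [E6] at E5
  unfold p2 at E5
  linear_combination (1 / 2 : ℂ) * E5

/-- For every period `b > 0` there is a fourth order operator `L = D⁴ + p₂ D² + p₁ D + p₀` with
real-analytic `b`-periodic coefficients and an entire function `Δ` such that the multiplier curve
of `L` is given by the factorised equation with `R(w) = w²`, while `L ≠ R'(H)` for every monic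
quadratic polynomial `R'` (in particular for `R`) and every Hill operator `H = D² + q`. -/
theorem result (b : ℝ) (hb : 0 < b) :
    ∃ p : ℕ → ℝ → ℂ, (∀ k, ContDiff ℝ ⊤ (p k) ∧ ∀ x, p k (x + b) = p k x) ∧
      ∃ Δ : ℂ → ℂ, Differentiable ℂ Δ ∧
        (∃ T, IsFloquet 4 b p T ∧ ∀ l r : ℂ, r ≠ 0 →
          ((r • (1 : Matrix (Fin 4) (Fin 4) ℂ) - T l).det = 0 ↔
            curveProduct (Polynomial.X ^ 2) Δ l r = 0)) ∧
        ∀ (R' : Polynomial ℂ) (q : ℝ → ℂ), R'.Monic → R'.natDegree = 2 → ContDiff ℝ 2 q →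
          ∃ u : ℝ → ℂ, ContDiff ℝ ⊤ u ∧ ∃ x, opL 4 p u x ≠ polyHill R' q u x := by
  obtain ⟨T, h1, h2, h3⟩ := exists_T b hb
  refine ⟨coef b, fun k => ⟨coef_contDiff b k, coef_per b hb k⟩, Del b, Del_differentiable b,
    ⟨T, h1, ?_⟩, fun R q hR hd hq => not_hill b hb R q hR hd hq⟩
  intro l r hr
  obtain ⟨k, hk⟩ := IsAlgClosed.exists_pow_nat_eq l (n := 4) (by norm_num)
  rw [← hk, det_eq hb h3 h2, curve_eq b k r hr]
  constructor
  · intro h; rw [h, zero_mul]
  · intro h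
    exact (mul_eq_zero.1 h).resolve_right (pow_ne_zero 2 (inv_ne_zero hr))

end

end Pool.Agent.Results.MP_214325_an.Disproof
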